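import Pool.Agent.H31.DP.Targets
import Pool.Agent.H39.LF.DEC
import Pool.Agent.H32.LF.Ent

/-!
Module DS of the project DP on `MP_c59857_nt`: decoupling for every subset of the coordinates
(after the module DEC of `H39/LF`).
-/

set_option autoImplicit false

open Finset Filter Topology

namespace Pool.Agent.H18.DP

open Pool.Agent.H31.DP
open Pool.Agent.H91.LF
open Pool.Agent.H24.T2 (Pset)
open Pool.Agent.H18.MR (FAP law ent mi gibbs law_nonneg law_sum law_le_comp sum_law_comp law_comp)
open Pool.Agent.H39.LF (dv_abs E_sum toFAP toFAP_shift E_comp law_res)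

variable {d : ℕ}

/-- The decoupling for one modulus and one set of coordinates. -/
theorem keyS (M : Mean d) (p : ℕ) [NeZero p] (S : Finset (Fin d))
    (g : (Fin d → ℤ) → ℝ) (hg : ∀ ω, |g ω| ≤ 1) {α : Type*} [Fintype α] [DecidableEq α]
    (X : (Fin d → ℤ) → α)
    (hX : ∀ ω ω', X ω = X ω' → ∀ k : Fin d → ℤ, (∀ i, 0 ≤ k i ∧ k i < p) →
      g (ω + k) = g (ω' + k)) :
    ∃ f : α × (Fin d → ZMod p) → ℝ, (∀ t, |f t| ≤ 1) ∧
      M.E (fun ω => (p : ℝ) ^ S.card * (ind (∀ i ∈ S, (p : ℤ) ∣ ω i) * g ω)) =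
        ∑ t, law (toFAP M) (fun ω => (X ω, resv (d := d) p ω)) t * f t ∧
      M.E g = ∑ t : α × (Fin d → ZMod p),
        law (toFAP M) X t.1 * law (toFAP M) (resv (d := d) p) t.2 * f t := by
  classical
  set kap : (Fin d → ZMod p) → Fin d → ℤ := fun y i => if i ∈ S then ((-(y i)).val : ℤ) else 0
    with hkap
  have hp0 : (0 : ℤ) < p := by exact_mod_cast Nat.pos_of_ne_zero (NeZero.ne p)
  have hkapb : ∀ y i, 0 ≤ kap y i ∧ kap y i < p := by
    intro y i
    simp only [hkap]
    split_ifs
    · exact ⟨by positivity, by exact_mod_cast ZMod.val_lt _⟩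
    · exact ⟨le_refl _, hp0⟩
  set G : α → (Fin d → ℤ) → ℝ := fun a k =>
    if h : ∃ ω, X ω = a then g (h.choose + k) else 0 with hG
  have hGb : ∀ a k, |G a k| ≤ 1 := by
    intro a k
    simp only [hG]
    split_ifs with h
    · exact hg _
    · simp
  have hGX : ∀ (ω k : Fin d → ℤ), (∀ i, 0 ≤ k i ∧ k i < (p : ℤ)) →
      G (X ω) k = g (ω + k) := by
    intro ω k hk
    have h : ∃ ω', X ω' = X ω := ⟨ω, rfl⟩
    simp only [hG]
    rw [dif_pos h]
    exact hX _ _ h.choose_spec k hk
  have gb : Bdd g := ⟨1, hg⟩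
  refine ⟨fun t => G t.1 (kap t.2), fun t => hGb _ _, ?_, ?_⟩
  · set YS : Finset (Fin d → ZMod p) :=
      Fintype.piFinset (fun i => if i ∈ S then (Finset.univ : Finset (ZMod p)) else {0}) with hYS
    have hYc : YS.card = p ^ S.card := by
      rw [hYS, Fintype.card_piFinset]
      have : ∀ i : Fin d, (if i ∈ S then (Finset.univ : Finset (ZMod p)) else {0}).card =
          if i ∈ S then p else 1 := by
        intro i
        split_ifs
        · simp [ZMod.card]
        · simp
      rw [Finset.prod_congr rfl (fun i _ => this i), Finset.prod_ite_mem]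
      simp
    set y0 : (Fin d → ℤ) → (Fin d → ZMod p) := fun ω i => if i ∈ S then resv p ω i else 0 with hy0
    have hy0m : ∀ ω, y0 ω ∈ YS := by
      intro ω
      rw [hYS, Fintype.mem_piFinset]
      intro i
      simp only [hy0]
      split_ifs <;> simp
    have hkapy : ∀ ω, kap (y0 ω) = kap (resv p ω) := by
      intro ω
      funext i
      simp only [hkap, hy0]
      split_ifs <;> rfl
    have hdiv : ∀ (ω : Fin d → ℤ) (y : Fin d → ZMod p), y ∈ YS →
        ((∀ i ∈ S, (p : ℤ) ∣ (ω + kap y) i) ↔ y = y0 ω) := by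
      intro ω y hy
      rw [hYS, Fintype.mem_piFinset] at hy
      constructor
      · intro h
        funext i
        have hyi := hy i
        simp only [hy0]
        by_cases hi : i ∈ S
        · have h1 := (ZMod.intCast_zmod_eq_zero_iff_dvd _ p).2 (h i hi)
          simp only [hkap, if_pos hi, Pi.add_apply, Int.cast_add,
            Int.cast_natCast, ZMod.natCast_zmod_val] at h1
          rw [if_pos hi]
          simp only [resv]
          linear_combination -h1
        · rw [if_neg hi] at hyi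
          rw [if_neg hi]
          simpa using hyi
      · rintro rfl i hi
        apply (ZMod.intCast_zmod_eq_zero_iff_dvd _ p).1
        simp only [hkap, hy0, if_pos hi, Pi.add_apply, Int.cast_add,
          Int.cast_natCast, ZMod.natCast_zmod_val]
        simp [resv]
    set u : (Fin d → ℤ) → ℝ := fun ω => ind (∀ i ∈ S, (p : ℤ) ∣ ω i) * g ω with hu
    have ub : Bdd u := ⟨1, fun ω => by
      simp only [hu, ind]
      split_ifs
      · simpa using hg ω
      · simp⟩
    have e1 : M.E (fun ω => (p : ℝ) ^ S.card * (ind (∀ i ∈ S, (p : ℤ) ∣ ω i) * g ω)) =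
        (p : ℝ) ^ S.card * M.E u := by
      rw [← M.smul _ _ ub]
    have e2 : (p : ℝ) ^ S.card * M.E u = ∑ y ∈ YS, M.E (fun ω => u (ω + kap y)) := by
      rw [Finset.sum_congr rfl (fun y _ => M.shift _ _ ub)]
      rw [Finset.sum_const, hYc, nsmul_eq_mul, Nat.cast_pow]
    have e3 : ∑ y ∈ YS, M.E (fun ω => u (ω + kap y)) =
        M.E (fun ω => G (X ω) (kap (resv p ω))) := by
      rw [← E_sum M YS (fun y ω => u (ω + kap y))]
      · congr 1
        funext ω
        rw [hGX ω _ (hkapb _), Finset.sum_eq_single_of_mem (y0 ω) (hy0m ω)]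
        · simp only [hu, ind]
          rw [if_pos ((hdiv ω _ (hy0m ω)).2 rfl), one_mul, hkapy]
        · intro y hy hne
          simp only [hu, ind]
          rw [if_neg (fun h => hne ((hdiv ω y hy).1 h)), zero_mul]
      · intro y _
        obtain ⟨C, hC⟩ := ub
        exact ⟨C, fun ω => hC _⟩
    rw [e1, e2, e3]
    exact E_comp M (fun ω => (X ω, resv (d := d) p ω)) (fun t => G t.1 (kap t.2))
  · rw [Fintype.sum_prod_type, Finset.sum_comm]
    have e1 : ∀ y : Fin d → ZMod p, ∑ a, law (toFAP M) X a * law (toFAP M) (resv (d := d) p) y *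
        G a (kap y) = 1 / (p : ℝ) ^ d * M.E g := by
      intro y
      rw [law_res M p y]
      have e2 : M.E g = ∑ a, law (toFAP M) X a * G a (kap y) := by
        rw [← E_comp M X (fun a => G a (kap y)), ← M.shift (kap y) g gb]
        congr 1
        funext ω
        rw [hGX ω _ (hkapb y)]
      rw [e2, Finset.mul_sum]
      apply Finset.sum_congr rfl
      intro a _
      ring
    simp only
    rw [Finset.sum_congr rfl (fun y _ => e1 y)]
    have hp : (p : ℝ) ≠ 0 := Nat.cast_ne_zero.2 (NeZero.ne p)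
    simp only [Finset.sum_const, Finset.card_univ, Fintype.card_pi, ZMod.card, Finset.prod_const,
      Fintype.card_fin, nsmul_eq_mul, Nat.cast_pow]
    field_simp

theorem pf_DS : StatementDS := by
  classical
  obtain ⟨c₀, hc₀, h⟩ := Pool.Agent.H32.LF.ent_main
  refine ⟨c₀, hc₀, ?_⟩
  intro d M A _ x e R θ m₀ hR hθ
  set s : ℝ := min 1 (θ / 2) with hs
  have hs0 : 0 < s := lt_min one_pos (by linarith)
  have hs1 : s ≤ 1 := min_le_left _ _
  have hs2 : s ≤ θ / 2 := min_le_right _ _
  obtain ⟨m, hm, hcard, hent⟩ := h d (toFAP M) (toFAP_shift M) A inferInstance x e 1 R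
    (s * (θ / 2)) m₀ one_pos hR (by positivity)
  refine ⟨m, hm, by simpa using hcard, ?_⟩
  intro S g hg hgx
  have hP : ∀ p ∈ Pset 1 m,
      |M.E (fun ω => (p : ℝ) ^ S.card * (ind (∀ i ∈ S, (p : ℤ) ∣ ω i) * g p ω))
      - M.E (g p)| ≤ miV (toFAP M) (blkv x e (R * 2 ^ m)) p / s + s := by
    intro p hp
    have hp' := (Finset.mem_filter.1 hp).2
    have hpp : p.Prime := hp'.1
    have : NeZero p := ⟨hpp.ne_zero⟩
    obtain ⟨f, hf, hf1, hf2⟩ := keyS M p S (g p) (hg p hp) (blkv x e (R * 2 ^ m)) (by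
      intro ω ω' hb k hk
      apply hgx p hp ω ω' _ k hk
      intro j hj
      exact congrFun hb ⟨j, hj⟩)
    have h3 := dv_abs (toFAP M) (blkv x e (R * 2 ^ m)) (resv (d := d) p) f hf s hs0 hs1
    rw [← hf1, ← hf2] at h3
    have h4 : miV (toFAP M) (blkv x e (R * 2 ^ m)) p =
        Pool.Agent.H18.MR.mi (toFAP M) (blkv x e (R * 2 ^ m)) (resv (d := d) p) := by
      unfold miV
      rw [dif_neg hpp.ne_zero]
    rw [h4]
    exact h3
  calc _ ≤ ∑ p ∈ Pset 1 m, (miV (toFAP M) (blkv x e (R * 2 ^ m)) p / s + s) :=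
        Finset.sum_le_sum (fun p hp => hP p hp)
    _ = (∑ p ∈ Pset 1 m, miV (toFAP M) (blkv x e (R * 2 ^ m)) p) / s +
        (Pset 1 m).card * s := by
        rw [Finset.sum_add_distrib, Finset.sum_div, Finset.sum_const, nsmul_eq_mul]
    _ ≤ (s * (θ / 2) * (Pset 1 m).card) / s + (Pset 1 m).card * (θ / 2) := by
        gcongr
    _ = θ * (Pset 1 m).card := by
        field_simp
        ring

end Pool.Agent.H18.DP
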